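import Mathlib

/-!
# Zero free functions as exponentials, to second order
-/

set_option autoImplicit false

namespace Pool.Agent.H118.MH

open Complex Filter Metric Set Topology

/-- a zero free function with bounded logarithmic derivative is an exponential, to second order -/
theorem lift {G : ℂ → ℂ} {c : ℂ} {r K : ℝ} (hr : 0 < r)
    (hd : DifferentiableOn ℂ G (ball c r)) (h0 : ∀ z ∈ ball c r, G z ≠ 0)
    (hK : ∀ z ∈ ball c r, ‖logDeriv G z‖ ≤ K) (w : ℂ) (hw : ‖w‖ ≤ r / 4) :
    ∃ e : ℂ, ‖e‖ ≤ 2 * K / r * ‖w‖ ^ 2 ∧ G (c + w) = G c * cexp (logDeriv G c * w + e) := by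
  have hcb : c ∈ ball c r := mem_ball_self hr
  have hhd : DifferentiableOn ℂ (logDeriv G) (ball c r) := (hd.deriv isOpen_ball).div hd h0
  obtain ⟨P, hP⟩ := hhd.isExactOn_ball
  have hGd : ∀ z ∈ ball c r, HasDerivAt G (deriv G z) z := fun z hz =>
    (hd.differentiableAt (isOpen_ball.mem_nhds hz)).hasDerivAt
  have hcw : c + w ∈ ball c r := by
    rw [mem_ball, dist_eq_norm, add_sub_cancel_left]
    linarith
  -- `G exp (-P)` is constant
  have hconst : G (c + w) * cexp (-P (c + w)) = G c * cexp (-P c) := by
    refine isOpen_ball.is_const_of_deriv_eq_zero (s := ball c r) (f := fun z => G z * cexp (-P z))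
      (convex_ball c r).isPreconnected ?_ ?_ hcw hcb
    · intro z hz
      exact ((hGd z hz).mul ((hP z hz).neg.cexp)).differentiableAt.differentiableWithinAt
    · intro z hz
      have h1 := ((hGd z hz).mul ((hP z hz).neg.cexp)).deriv
      have h2 : G z ≠ 0 := h0 z hz
      simp only [Pi.zero_apply]
      refine Eq.trans h1 ?_
      rw [logDeriv_apply]
      field_simp
      ring
  -- the derivative of the logarithmic derivative
  have hcau : ∀ z : ℂ, ‖z - c‖ ≤ r / 4 → ‖deriv (logDeriv G) z‖ ≤ K / (r / 2) := by
    intro z hz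
    have hsub : closedBall z (r / 2) ⊆ ball c r := by
      intro x hx
      rw [mem_closedBall, dist_eq_norm] at hx
      rw [mem_ball, dist_eq_norm]
      have := norm_add_le (x - z) (z - c)
      rw [sub_add_sub_cancel] at this
      linarith
    refine Complex.norm_deriv_le_of_forall_mem_sphere_norm_le (by positivity) ?_ ?_
    · apply DifferentiableOn.diffContOnCl
      rw [closure_ball z (by positivity : r / 2 ≠ 0)]
      exact hhd.mono hsub
    · intro x hx
      exact hK x (hsub (sphere_subset_closedBall hx))
  have hK0 : 0 ≤ K := (norm_nonneg _).trans (hK c hcb)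
  have hlip : ∀ z ∈ closedBall c ‖w‖, ‖logDeriv G z - logDeriv G c‖ ≤ K / (r / 2) * ‖w‖ := by
    intro z hz
    rw [mem_closedBall, dist_eq_norm] at hz
    have h1 := (convex_closedBall c (r / 4)).norm_image_sub_le_of_norm_deriv_le (f := logDeriv G)
      (C := K / (r / 2)) (x := c) (y := z) ?_ ?_ (mem_closedBall_self (by positivity))
      (by rw [mem_closedBall, dist_eq_norm]; linarith)
    · exact h1.trans (mul_le_mul_of_nonneg_left hz (by positivity))
    · intro x hx
      rw [mem_closedBall, dist_eq_norm] at hx
      exact hhd.differentiableAt (isOpen_ball.mem_nhds (by rw [mem_ball, dist_eq_norm]; linarith))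
    · intro x hx
      rw [mem_closedBall, dist_eq_norm] at hx
      exact hcau x hx
  refine ⟨P (c + w) - P c - logDeriv G c * w, ?_, ?_⟩
  · have h1 := (convex_closedBall c ‖w‖).norm_image_sub_le_of_norm_hasDerivWithin_le
      (f := fun z => P z - logDeriv G c * z) (f' := fun z => logDeriv G z - logDeriv G c)
      (C := K / (r / 2) * ‖w‖) (x := c) (y := c + w) ?_ hlip (mem_closedBall_self (norm_nonneg _))
      (by rw [mem_closedBall, dist_eq_norm, add_sub_cancel_left])
    · have e1 : P (c + w) - P c - logDeriv G c * w =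
          (P (c + w) - logDeriv G c * (c + w)) - (P c - logDeriv G c * c) := by ring
      rw [e1]
      refine h1.trans (le_of_eq ?_)
      rw [add_sub_cancel_left]
      field_simp
    · intro z hz
      rw [mem_closedBall, dist_eq_norm] at hz
      have hzb : z ∈ ball c r := by rw [mem_ball, dist_eq_norm]; linarith
      have h2 := (hP z hzb).sub (((hasDerivAt_id z).const_mul (logDeriv G c)))
      rw [mul_one] at h2
      exact h2.hasDerivWithinAt
  · have e1 : logDeriv G c * w + (P (c + w) - P c - logDeriv G c * w) = P (c + w) - P c := by ring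
    rw [e1]
    have h1 : G (c + w) = G (c + w) * cexp (-P (c + w)) * cexp (P (c + w)) := by
      rw [mul_assoc, ← Complex.exp_add]
      simp
    rw [h1, hconst, mul_assoc, ← Complex.exp_add]
    congr 2
    ring

end Pool.Agent.H118.MH
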