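import Pool.Agent.H444.MH.Stm
import Pool.Agent.H118.MH.Lift
import Pool.Graph.R_pool_sql_team_seeded_3997aac3.Q149.UM.LOC

/-!
# `S_LEX`: local factorisation of zeta, to second order
-/

set_option autoImplicit false

namespace Pool.Agent.H118.MH

open Pool.Agent.Q97.UM Pool.Agent.Q149.UM
open Complex Filter Metric Set Topology

noncomputable section

/-- the local factorisation, complex form -/
theorem loc_data2 : ∃ D : ℝ, 0 < D ∧ ∀ T t : ℝ, 100 ≤ T → T / 10 ≤ t → t ≤ 11 * T →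
    ∃ (g : ℂ → ℂ) (S : Finset ℂ),
      (∀ ρ ∈ S, ρ ∈ ZD T ∧ ‖ρ - ⟨2, t⟩‖ ≤ 1.8) ∧ (∀ ρ ∈ ZD T, ‖ρ - ⟨2, t⟩‖ ≤ 1.8 → ρ ∈ S) ∧
      (∀ z ∈ closedBall (⟨2, t⟩ : ℂ) 1.6, g z ≠ 0 ∧ DifferentiableAt ℂ g z ∧
        ‖logDeriv g z‖ ≤ D * Real.log T) ∧
      (∀ z, riemannZeta z = (∏ ρ ∈ S, (z - ρ) ^ mz ρ) * g z) := by
  classical
  obtain ⟨K, hK, hdata⟩ := H370.Loc.ball_data H370.good_zeta
  set q : ℝ := Real.log (1.9 / 1.8) with hq
  have hq0 : 0 < q := Real.log_pos (by norm_num)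
  set ℓ : ℝ := Real.log (1.8 / (1.9 - 1.8)) with hℓ
  have hℓ0 : 0 < ℓ := Real.log_pos (by norm_num)
  set D1 : ℝ := 2 * (K + K / q * ℓ + 1) * 1.7 / (1.8 - 1.7) / (1.7 - 1.6) with hD1
  have hD10 : 0 < D1 := by
    have : (0 : ℝ) < 1.8 - 1.7 := by norm_num
    have : (0 : ℝ) < 1.7 - 1.6 := by norm_num
    positivity
  refine ⟨2 * D1, by positivity, fun T t hT ht1 ht2 => ?_⟩
  have ht3 : 10 ≤ t := by linarith
  have hlt : 1 ≤ Real.log t := H370.Loc.one_le_log (by linarith)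
  have hltT : Real.log t ≤ 2 * Real.log T := by
    have h6 : Real.log t ≤ Real.log (T ^ 2) := Real.log_le_log (by linarith) (by nlinarith)
    rw [Real.log_pow] at h6
    exact_mod_cast h6
  obtain ⟨M, hM1, han, hF0, hb, hMc, hL0, hLM⟩ := hdata t (by linarith)
  obtain ⟨s, g, hs, hg, hfg, hg0, hlg⟩ := SP.LocAux.extract_bound (f := riemannZeta)
    (c := ⟨2, t⟩) (r := 1.8) (r1 := 1.7) (r2 := 1.6) (R := 1.9) (M := M) (by norm_num)
    (by norm_num) (by norm_num) (by norm_num) (by norm_num) hM1 hMc han hF0 hb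
  have hlg' : ∀ z ∈ closedBall (⟨2, t⟩ : ℂ) 1.6, ‖logDeriv g z‖ ≤ 2 * D1 * Real.log T := by
    intro z hz
    have hD1t : ‖logDeriv g z‖ ≤ D1 * Real.log t := by
      refine (hlg z hz).trans ?_
      set X := Real.log (M / ‖riemannZeta ⟨2, t⟩‖) with hX
      have h1 : X / q * ℓ ≤ K * Real.log t / q * ℓ := by gcongr
      have h2 : X + X / q * ℓ + 1 ≤ (K + K / q * ℓ + 1) * Real.log t := by
        have h3 : K * Real.log t / q * ℓ = K / q * ℓ * Real.log t := by ring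
        rw [h3] at h1
        nlinarith
      have h4 : (0 : ℝ) < 1.8 - 1.7 := by norm_num
      have h5 : (0 : ℝ) < 1.7 - 1.6 := by norm_num
      calc _ ≤ 2 * ((K + K / q * ℓ + 1) * Real.log t) * 1.7 / (1.8 - 1.7) / (1.7 - 1.6) := by
            gcongr
        _ = D1 * Real.log t := by rw [hD1]; ring
    have := mul_le_mul_of_nonneg_left hltT hD10.le
    linarith
  have hsub1 : closedBall (⟨2, t⟩ : ℂ) 1.6 ⊆ closedBall (⟨2, t⟩ : ℂ) 1.8 :=
    closedBall_subset_closedBall (by norm_num)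
  have hsub2 : closedBall (⟨2, t⟩ : ℂ) 1.8 ⊆ closedBall (⟨2, t⟩ : ℂ) 1.9 :=
    closedBall_subset_closedBall (by norm_num)
  have hmem : ∀ ρ ∈ s, ρ ∈ ZD T ∧ ‖ρ - ⟨2, t⟩‖ ≤ 1.8 := by
    intro ρ hρ
    obtain ⟨h1, h2⟩ := hs ρ hρ
    rw [mem_closedBall, dist_eq_norm] at h1
    have h3 := (Complex.abs_re_le_norm (ρ - ⟨2, t⟩)).trans h1
    have h4 := (Complex.abs_im_le_norm (ρ - ⟨2, t⟩)).trans h1
    simp only [sub_re, sub_im] at h3 h4
    rw [abs_le] at h3 h4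
    have hre0 : 0 < ρ.re := by norm_num at h3 ⊢; linarith [h3.1]
    have him0 : t - 2 ≤ ρ.im := by norm_num at h4 ⊢; linarith [h4.1]
    have him1 : ρ.im ≤ t + 2 := by norm_num at h4 ⊢; linarith [h4.2]
    have hre1 : ρ.re < 1 := by
      by_contra hcon
      push Not at hcon
      exact H370.good_zeta.nzr ρ hcon (by linarith) h2
    refine ⟨(mem_ZD (by linarith)).2 ⟨hre0, hre1, by linarith, by linarith, h2⟩, h1⟩
  refine ⟨g, s.toFinset, fun ρ hρ => hmem ρ (Multiset.mem_toFinset.1 hρ), ?_, ?_, ?_⟩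
  · intro ρ hρ hball
    rw [mem_ZD (by linarith)] at hρ
    have hb' : ρ ∈ closedBall (⟨2, t⟩ : ℂ) 1.8 := by
      rw [mem_closedBall, dist_eq_norm]
      exact hball
    rw [Multiset.mem_toFinset]
    by_contra hns
    have h7 : H370.Loc.Pf s ρ ≠ 0 := H370.Loc.Pf_ne_zero fun x hx he => hns (he ▸ hx)
    have h8 := hfg ρ
    rw [hρ.2.2.2.2] at h8
    exact mul_ne_zero h7 (hg0 ρ hb') h8.symm
  · intro z hz
    exact ⟨hg0 z (hsub1 hz), (hg z (hsub2 (hsub1 hz))).differentiableAt, hlg' z hz⟩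
  · intro z
    rw [hfg z]
    congr 1
    unfold H370.Loc.Pf
    rw [Finset.prod_multiset_map_count]
    apply Finset.prod_congr rfl
    intro ρ hρ
    have hρ' := Multiset.mem_toFinset.1 hρ
    have hρb := (hs ρ hρ').1
    have h1 := hmem ρ hρ'
    have h2 := (mem_ZD (by linarith)).1 h1.1
    have h3 : H370.mult riemannZeta ρ = s.count ρ :=
      SP.LocAux.count_eq_mult (H370.good_zeta.an ρ (by linarith [h2.2.2.1])) (hg ρ (hsub2 hρb))
        (hg0 ρ hρb) hfg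
    rw [← h3]
    rfl

/-- logarithmic derivative of a product of powers -/
theorem logDeriv_pr (U : Finset ℂ) (m : ℂ → ℕ) {z : ℂ} (h : ∀ ρ ∈ U, z ≠ ρ) :
    logDeriv (fun z => ∏ ρ ∈ U, (z - ρ) ^ m ρ) z = ∑ ρ ∈ U, (m ρ : ℂ) / (z - ρ) := by
  rw [logDeriv_prod (f := fun ρ z => (z - ρ) ^ m ρ)
    (fun ρ hρ => pow_ne_zero _ (sub_ne_zero.2 (h ρ hρ))) (fun ρ _ => by fun_prop)]
  refine Finset.sum_congr rfl fun ρ _ => ?_
  rw [logDeriv_fun_pow (by fun_prop)]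
  rw [logDeriv_apply]
  have : deriv (fun z : ℂ => z - ρ) z = 1 := by simp
  rw [this]
  ring

/-- the local factorisation over the zeros of a strip -/
theorem loc_strip : ∃ D : ℝ, 0 < D ∧ ∀ T t : ℝ, 100 ≤ T → T / 10 ≤ t → t ≤ 11 * T →
    ∃ G : ℂ → ℂ, DifferentiableOn ℂ G (ball (1 / 2 + t * I : ℂ) (1 / 20)) ∧
      (∀ z ∈ ball (1 / 2 + t * I : ℂ) (1 / 20), G z ≠ 0) ∧
      (∀ z ∈ ball (1 / 2 + t * I : ℂ) (1 / 20), ‖logDeriv G z‖ ≤ D * Real.log T) ∧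
      (∀ z ∈ ball (1 / 2 + t * I : ℂ) (1 / 20),
        riemannZeta z = (∏ s ∈ AA T t, (z - s) ^ mz s) * G z) := by
  classical
  obtain ⟨C0, hC0, hC⟩ := count_near
  obtain ⟨D, hD, hdat⟩ := loc_data2
  refine ⟨D + 20 * (3 * C0), by positivity, fun T t hT ht1 ht2 => ?_⟩
  obtain ⟨g, S, hS1, hS2, hg, hfac⟩ := hdat T t hT ht1 ht2
  set A := AA T t with hA
  set c : ℂ := 1 / 2 + t * I with hc
  have hSim : ∀ ρ ∈ S, ρ ∈ ZD T ∧ |ρ.im - t| ≤ 2 := by
    intro ρ hρ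
    obtain ⟨h3, h4⟩ := hS1 ρ hρ
    have h5 := (Complex.abs_im_le_norm (ρ - ⟨2, t⟩)).trans h4
    simp only [sub_im] at h5
    refine ⟨h3, by norm_num at h5 ⊢; linarith⟩
  have hsumS := sum_S_le hC hT ht1 ht2 S hSim
  have hsumA := hC T t (by linarith) (by linarith) (by linarith)
  have hfar : ∀ z ∈ ball c (1 / 20), ∀ ρ, ((ρ ∈ S ∧ ρ ∉ A) ∨ (ρ ∈ A ∧ ρ ∉ S)) →
      1 / 20 ≤ ‖z - ρ‖ := by
    intro z hz ρ hρ
    rw [mem_ball, dist_eq_norm] at hz
    have h1 := (far_pt hT S hS1 hS2 (x := t) (by simp) ρ hρ).1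
    rw [← hc] at h1
    have h2 := norm_add_le (c - z) (z - ρ)
    rw [sub_add_sub_cancel, norm_sub_rev c z] at h2
    linarith
  have hin : ∀ z ∈ ball c (1 / 20), z ∈ closedBall (⟨2, t⟩ : ℂ) 1.6 := by
    intro z hz
    rw [mem_ball, dist_eq_norm] at hz
    rw [mem_closedBall, dist_eq_norm]
    have h1 : ‖c - ⟨2, t⟩‖ = 3 / 2 := by
      have : c - ⟨2, t⟩ = ((-(3 / 2) : ℝ) : ℂ) := by
        apply Complex.ext <;> simp [hc]
        norm_num
      rw [this, Complex.norm_real, Real.norm_eq_abs, abs_of_neg (by norm_num)]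
      norm_num
    have h2 := norm_add_le (z - c) (c - ⟨2, t⟩)
    rw [sub_add_sub_cancel] at h2
    norm_num at h1 h2 ⊢
    linarith
  have hne : ∀ z ∈ ball c (1 / 20), ∀ ρ, ((ρ ∈ S ∧ ρ ∉ A) ∨ (ρ ∈ A ∧ ρ ∉ S)) → z ≠ ρ := by
    intro z hz ρ hρ he
    have := hfar z hz ρ hρ
    rw [he, sub_self, norm_zero] at this
    norm_num at this
  set P1 : ℂ → ℂ := fun z => ∏ ρ ∈ S \ A, (z - ρ) ^ mz ρ with hP1
  set P2 : ℂ → ℂ := fun z => ∏ ρ ∈ A \ S, (z - ρ) ^ mz ρ with hP2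
  have hP1d : ∀ z, DifferentiableAt ℂ P1 z := by
    intro z
    rw [hP1]
    fun_prop
  have hP2d : ∀ z, DifferentiableAt ℂ P2 z := by
    intro z
    rw [hP2]
    fun_prop
  have hn1 : ∀ z ∈ ball c (1 / 20), ∀ ρ ∈ S \ A, z ≠ ρ := fun z hz ρ hρ =>
    hne z hz ρ (Or.inl (Finset.mem_sdiff.1 hρ))
  have hn2 : ∀ z ∈ ball c (1 / 20), ∀ ρ ∈ A \ S, z ≠ ρ := fun z hz ρ hρ =>
    hne z hz ρ (Or.inr (Finset.mem_sdiff.1 hρ))
  have hP1z : ∀ z ∈ ball c (1 / 20), P1 z ≠ 0 := fun z hz =>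
    Finset.prod_ne_zero_iff.2 fun ρ hρ => pow_ne_zero _ (sub_ne_zero.2 (hn1 z hz ρ hρ))
  have hP2z : ∀ z ∈ ball c (1 / 20), P2 z ≠ 0 := fun z hz =>
    Finset.prod_ne_zero_iff.2 fun ρ hρ => pow_ne_zero _ (sub_ne_zero.2 (hn2 z hz ρ hρ))
  refine ⟨fun z => P1 z * g z / P2 z, ?_, ?_, ?_, ?_⟩
  · intro z hz
    exact (((hP1d z).mul (hg z (hin z hz)).2.1).div (hP2d z) (hP2z z hz)).differentiableWithinAt
  · intro z hz
    exact div_ne_zero (mul_ne_zero (hP1z z hz) (hg z (hin z hz)).1) (hP2z z hz)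
  · intro z hz
    obtain ⟨g1, g2, g3⟩ := hg z (hin z hz)
    have e1 : logDeriv (fun z => P1 z * g z / P2 z) z =
        (∑ ρ ∈ S \ A, (mz ρ : ℂ) / (z - ρ)) + logDeriv g z - ∑ ρ ∈ A \ S, (mz ρ : ℂ) / (z - ρ) := by
      rw [logDeriv_div (f := fun z => P1 z * g z) (g := P2) z (mul_ne_zero (hP1z z hz) g1) (hP2z z hz)
        ((hP1d z).mul g2) (hP2d z)]
      rw [logDeriv_mul z (hP1z z hz) g1 (hP1d z) g2]
      rw [hP1, hP2, logDeriv_pr _ _ (hn1 z hz), logDeriv_pr _ _ (hn2 z hz)]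
    have key : ∀ U V : Finset ℂ, (∀ ρ ∈ U \ V, 1 / 20 ≤ ‖z - ρ‖) →
        ‖∑ ρ ∈ U \ V, (mz ρ : ℂ) / (z - ρ)‖ ≤ 20 * ∑ ρ ∈ U, (mz ρ : ℝ) := by
      intro U V hUV
      refine (norm_sum_le _ _).trans ?_
      rw [Finset.mul_sum]
      have h3 : ∑ ρ ∈ U \ V, ‖(mz ρ : ℂ) / (z - ρ)‖ ≤ ∑ ρ ∈ U \ V, 20 * (mz ρ : ℝ) := by
        apply Finset.sum_le_sum
        intro ρ hρ
        have h4 := hUV ρ hρ
        have h5 : (0 : ℝ) ≤ mz ρ := Nat.cast_nonneg _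
        rw [norm_div, Complex.norm_natCast, div_le_iff₀ (by linarith)]
        nlinarith
      exact h3.trans (Finset.sum_le_sum_of_subset_of_nonneg Finset.sdiff_subset
        (fun ρ _ _ => by positivity))
    have k1 := key S A (fun ρ hρ => hfar z hz ρ (Or.inl (Finset.mem_sdiff.1 hρ)))
    have k2 := key A S (fun ρ hρ => hfar z hz ρ (Or.inr (Finset.mem_sdiff.1 hρ)))
    rw [e1]
    refine (norm_sub_le _ _).trans ?_
    have k3 := norm_add_le (∑ ρ ∈ S \ A, (mz ρ : ℂ) / (z - ρ)) (logDeriv g z)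
    have k4 : (0 : ℝ) < Real.log T := Real.log_pos (by linarith)
    nlinarith
  · intro z hz
    have h1 := hfac z
    have e1 : ∏ ρ ∈ S, (z - ρ) ^ mz ρ = (∏ ρ ∈ S ∩ A, (z - ρ) ^ mz ρ) * P1 z := by
      rw [hP1]
      exact (Finset.prod_inter_mul_prod_sdiff S A _).symm
    have e2 : ∏ ρ ∈ A, (z - ρ) ^ mz ρ = (∏ ρ ∈ S ∩ A, (z - ρ) ^ mz ρ) * P2 z := by
      rw [hP2, Finset.inter_comm]
      exact (Finset.prod_inter_mul_prod_sdiff A S _).symm
    rw [h1, e1, e2]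
    have := hP2z z hz
    field_simp

theorem t_LEX : Pool.Agent.H444.MH.S_LEX := by
  classical
  obtain ⟨D, hD, hdat⟩ := loc_strip
  refine ⟨2 * D / (1 / 20), by positivity, ?_⟩
  filter_upwards [eventually_ge_atTop (100 : ℝ)] with T hT t ht1 ht2 hz
  obtain ⟨G, hG1, hG2, hG3, hG4⟩ := hdat T t hT (by linarith) (by linarith)
  set c : ℂ := 1 / 2 + t * I with hc
  have hcb : c ∈ ball c (1 / 20) := mem_ball_self (by norm_num)
  have hA : (ZD T).filter (fun s => |s.im - t| ≤ 1) = AA T t := by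
    unfold AA
    congr
  have hzt : zt t = riemannZeta c := rfl
  have hzc : riemannZeta c ≠ 0 := hz
  have hne : ∀ s ∈ AA T t, c ≠ s := by
    intro s hs he
    rw [he] at hzc
    exact hzc ((mem_AA (by linarith)).1 hs).1.2.2.2.2
  refine ⟨logDeriv G c, ?_, ?_⟩
  · rw [hA, hzt]
    have hev : riemannZeta =ᶠ[𝓝 c] fun z => (∏ s ∈ AA T t, (z - s) ^ mz s) * G z := by
      filter_upwards [isOpen_ball.mem_nhds hcb] with z hz
      exact hG4 z hz
    have hGd : DifferentiableAt ℂ G c := hG1.differentiableAt (isOpen_ball.mem_nhds hcb)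
    have hPd : DifferentiableAt ℂ (fun z => ∏ s ∈ AA T t, (z - s) ^ mz s) c := by fun_prop
    have hP0 : (∏ s ∈ AA T t, (c - s) ^ mz s) ≠ 0 :=
      Finset.prod_ne_zero_iff.2 fun s hs => pow_ne_zero _ (sub_ne_zero.2 (hne s hs))
    have h1 : logDeriv riemannZeta c = logDeriv G c + ∑ s ∈ AA T t, (mz s : ℂ) / (c - s) := by
      have e1 : logDeriv riemannZeta c = logDeriv (fun z => (∏ s ∈ AA T t, (z - s) ^ mz s) * G z) c := by
        rw [logDeriv_apply, logDeriv_apply, hev.deriv_eq, hev.eq_of_nhds]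
      rw [e1, logDeriv_mul c hP0 (hG2 c hcb) hPd hGd, logDeriv_pr _ _ hne, add_comm]
    rw [← h1, logDeriv_apply]
    field_simp
  · intro w hw
    obtain ⟨e, he1, he2⟩ := lift (by norm_num : (0 : ℝ) < 1 / 20) hG1 hG2 hG3 w (by linarith)
    refine ⟨e, ?_, ?_⟩
    · refine he1.trans (le_of_eq ?_)
      ring
    · rw [hA, hzt]
      have hcw : c + w ∈ ball c (1 / 20) := by
        rw [mem_ball, dist_eq_norm, add_sub_cancel_left]
        linarith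
      rw [hG4 (c + w) hcw, hG4 c hcb, he2]
      have e1 : ∏ s ∈ AA T t, (c + w - s) ^ mz s =
          (∏ s ∈ AA T t, (c - s) ^ mz s) * ∏ s ∈ AA T t, (1 + w / (c - s)) ^ mz s := by
        rw [← Finset.prod_mul_distrib]
        refine Finset.prod_congr rfl fun s hs => ?_
        rw [← mul_pow]
        congr 1
        have := sub_ne_zero.2 (hne s hs)
        field_simp
        ring
      rw [e1]
      ring

end

end Pool.Agent.H118.MH
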